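import Pool.Agent.K7.H41.OP.Stm

set_option autoImplicit false

/-! JOB FAC of project OP (MP_0c5939_al). -/

namespace Pool.Agent.K7.H42.OP

open Pool.Agent.K7.H41.OP

variable {A B : Type} [Group A] [Group B]

theorem fst_eq (φ : MulAut (A × B)) (a : A) (b : B) : (φ (a, b)).1 = al φ a * be φ b := by
  have h : ((a, b) : A × B) = (a, 1) * (1, b) := by simp
  rw [h, map_mul]
  rfl

theorem snd_eq (φ : MulAut (A × B)) (a : A) (b : B) : (φ (a, b)).2 = ga φ a * de φ b := by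
  have h : ((a, b) : A × B) = (a, 1) * (1, b) := by simp
  rw [h, map_mul]
  rfl

theorem mem_center (x : A × B) : x ∈ Subgroup.center (A × B) ↔
    x.1 ∈ Subgroup.center A ∧ x.2 ∈ Subgroup.center B := by
  simp only [Subgroup.mem_center_iff]
  constructor
  · intro h
    exact ⟨fun a => congrArg Prod.fst (h (a, 1)), fun b => congrArg Prod.snd (h (1, b))⟩
  · rintro ⟨h1, h2⟩ ⟨a, b⟩
    exact Prod.ext (h1 a) (h2 b)

theorem map_center {G : Type} [Group G] (φ : MulAut G) {x : G} (hx : x ∈ Subgroup.center G) :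
    φ x ∈ Subgroup.center G := by
  rw [Subgroup.mem_center_iff] at hx ⊢
  intro y
  obtain ⟨z, rfl⟩ := φ.surjective y
  rw [← map_mul, ← map_mul, hx]

theorem al_center (φ : MulAut (A × B)) {a : A} (ha : a ∈ Subgroup.center A) :
    al φ a ∈ Subgroup.center A :=
  ((mem_center _).1 (map_center φ ((mem_center (a, (1 : B))).2 ⟨ha, Subgroup.one_mem _⟩))).1

theorem ga_center (φ : MulAut (A × B)) {a : A} (ha : a ∈ Subgroup.center A) :
    ga φ a ∈ Subgroup.center B :=
  ((mem_center _).1 (map_center φ ((mem_center (a, (1 : B))).2 ⟨ha, Subgroup.one_mem _⟩))).2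

theorem be_center (φ : MulAut (A × B)) {b : B} (hb : b ∈ Subgroup.center B) :
    be φ b ∈ Subgroup.center A :=
  ((mem_center _).1 (map_center φ ((mem_center ((1 : A), b)).2 ⟨Subgroup.one_mem _, hb⟩))).1

theorem de_center (φ : MulAut (A × B)) {b : B} (hb : b ∈ Subgroup.center B) :
    de φ b ∈ Subgroup.center B :=
  ((mem_center _).1 (map_center φ ((mem_center ((1 : A), b)).2 ⟨Subgroup.one_mem _, hb⟩))).2

theorem comm1 (φ : MulAut (A × B)) (a : A) (b : B) : al φ a * be φ b = be φ b * al φ a := by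
  have h : ((a, 1) : A × B) * (1, b) = (1, b) * (a, 1) := by simp
  have := congrArg (fun x => (φ x).1) h
  simp only [map_mul] at this
  exact this

theorem comm2 (φ : MulAut (A × B)) (a : A) (b : B) : ga φ a * de φ b = de φ b * ga φ a := by
  have h : ((a, 1) : A × B) * (1, b) = (1, b) * (a, 1) := by simp
  have := congrArg (fun x => (φ x).2) h
  simp only [map_mul] at this
  exact this

theorem stFac : StFac := by
  intro A B _ _ φ
  have i1 : ∀ x, φ⁻¹ (φ x) = x := fun x => MulAut.inv_apply_self _ φ x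
  have i2 : ∀ x, φ (φ⁻¹ x) = x := fun x => MulAut.apply_inv_self _ φ x
  have p1 : ∀ (b : B), φ (1, b) = (be φ b, de φ b) := fun b => rfl
  have p2 : ∀ (a : A), φ (a, 1) = (al φ a, ga φ a) := fun b => rfl
  have p3 : ∀ (b : B), φ⁻¹ (1, b) = (be φ⁻¹ b, de φ⁻¹ b) := fun b => rfl
  have p4 : ∀ (a : A), φ⁻¹ (a, 1) = (al φ⁻¹ a, ga φ⁻¹ a) := fun b => rfl
  -- relations from `ψ φ = 1` and `φ ψ = 1`
  have r1 : ∀ b, al φ⁻¹ (be φ b) * be φ⁻¹ (de φ b) = 1 := by
    intro b
    rw [← fst_eq, ← p1, i1]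
  have r2 : ∀ b, ga φ⁻¹ (be φ b) * de φ⁻¹ (de φ b) = b := by
    intro b
    rw [← snd_eq, ← p1, i1]
  have r3 : ∀ a, al φ⁻¹ (al φ a) * be φ⁻¹ (ga φ a) = a := by
    intro a
    rw [← fst_eq, ← p2, i1]
  have r4 : ∀ b, al φ (be φ⁻¹ b) * be φ (de φ⁻¹ b) = 1 := by
    intro b
    rw [← fst_eq, ← p3, i2]
  have r5 : ∀ a, ga φ (al φ⁻¹ a) * de φ (ga φ⁻¹ a) = 1 := by
    intro a
    rw [← snd_eq, ← p4, i2]
  have hz : ∀ b, al φ⁻¹ (be φ b) ∈ Subgroup.center A := by
    intro b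
    rw [Subgroup.mem_center_iff]
    intro a
    rw [← r3 a]
    have c1 : be φ⁻¹ (ga φ a) * al φ⁻¹ (be φ b) = al φ⁻¹ (be φ b) * be φ⁻¹ (ga φ a) :=
      (comm1 _ _ _).symm
    have e : al φ⁻¹ (be φ b) = (be φ⁻¹ (de φ b))⁻¹ := eq_inv_of_mul_eq_one_left (r1 b)
    have c2 : al φ⁻¹ (al φ a) * al φ⁻¹ (be φ b) = al φ⁻¹ (be φ b) * al φ⁻¹ (al φ a) := by
      rw [e, ← map_inv]
      exact comm1 _ _ _
    rw [mul_assoc, c1, ← mul_assoc, c2, mul_assoc]
  have hz' : ∀ b, be φ⁻¹ (de φ b) ∈ Subgroup.center A := by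
    intro b
    have e : be φ⁻¹ (de φ b) = (al φ⁻¹ (be φ b))⁻¹ := eq_inv_of_mul_eq_one_right (r1 b)
    rw [e]
    exact Subgroup.inv_mem _ (hz b)
  refine ⟨(Subgroup.center A).comap (be φ), (Subgroup.center B).comap (de φ), fun b => Iff.rfl,
    fun b => Iff.rfl, inferInstance, inferInstance, ?_, ?_, ?_⟩
  · ext b
    simp only [Subgroup.mem_inf, Subgroup.mem_comap]
    constructor
    · rintro ⟨h1, h2⟩
      have h3 : φ (1, b) ∈ Subgroup.center (A × B) := (mem_center _).2 ⟨h1, h2⟩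
      have h4 := map_center φ⁻¹ h3
      rw [i1] at h4
      exact ((mem_center _).1 h4).2
    · intro h
      exact ⟨be_center φ h, de_center φ h⟩
  · rw [eq_top_iff]
    intro b _
    rw [← r2 b]
    refine Subgroup.mul_mem _ (Subgroup.mem_sup_right ?_) (Subgroup.mem_sup_left ?_)
    · have h := r5 (be φ b)
      rw [Subgroup.mem_comap, eq_inv_of_mul_eq_one_right h]
      exact Subgroup.inv_mem _ (ga_center φ (hz b))
    · have h := r4 (de φ b)
      rw [Subgroup.mem_comap, eq_inv_of_mul_eq_one_right h]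
      exact Subgroup.inv_mem _ (al_center φ (hz' b))
  · intro hE a
    have hE' : ∀ b, be φ b ∈ Subgroup.center A := fun b => by
      have : b ∈ (Subgroup.center A).comap (be φ) := by rw [hE]; trivial
      exact this
    rw [Subgroup.mem_center_iff]
    intro b
    rw [← r2 b]
    have h1 := (Subgroup.mem_center_iff.1 (ga_center φ⁻¹ (hE' b))) (ga φ⁻¹ a)
    have h2 := comm2 φ⁻¹ a (de φ b)
    rw [mul_assoc, ← h2, ← mul_assoc, ← h1, mul_assoc]

end Pool.Agent.K7.H42.OP
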